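import Pool.Agent.Q302.TD.Oper
import Pool.Agent.Results.MP_917879_lc.AdditiveModNull

set_option autoImplicit false

/-!
Turing determinacy implies that the Calkin algebra has no nonzero additive map into the reals: for
every direct sum `X` of finite dimensional spaces in the sense of `ℓ^p` (for example the separable
Hilbert space) and every normed space `Y`, every additive map from the bounded operators from `X` to
`Y` to a group of size at most the continuum which vanishes on the compact operators is zero. Stated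
as an explicit reduction to the determinacy of Turing invariant sets.
-/

namespace Pool.Agent.Results.MP_917879_lc.OperatorsModCompact

open Pool.Agent.H685R3 Filter Topology
open Pool.Agent.Q302.TD.OP (mulOp mulOp_apply mulOp_add mulOp_mul mulOp_sub mulOp_one
  compact_of_null)

/-- The real sequence `a` is bounded. -/
def Bd (a : ℕ → ℝ) : Prop := ∃ C : ℝ, ∀ n, |a n| ≤ C

/-- The operators `mul a` depend additively on the bounded sequence `a`. -/
def IsAdd {𝕜 X : Type*} [RCLike 𝕜] [NormedAddCommGroup X] [NormedSpace 𝕜 X]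
    (mul : (ℕ → ℝ) → X →L[𝕜] X) : Prop :=
  ∀ a b, Bd a → Bd b → ∀ f, mul (a + b) f = mul a f + mul b f

/-- The operators `mul a` depend multiplicatively on the bounded sequence `a`. -/
def IsMul {𝕜 X : Type*} [RCLike 𝕜] [NormedAddCommGroup X] [NormedSpace 𝕜 X]
    (mul : (ℕ → ℝ) → X →L[𝕜] X) : Prop :=
  ∀ a b, Bd a → Bd b → ∀ f, mul (a * b) f = mul a (mul b f)

/-- A unital representation of the ring of bounded real sequences by bounded operators on the normed
space `X` for which null sequences act by compact operators. -/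
structure Action (𝕜 X : Type*) [RCLike 𝕜] [NormedAddCommGroup X] [NormedSpace 𝕜 X] where
  /-- the operator of a sequence -/
  mul : (ℕ → ℝ) → X →L[𝕜] X
  one : ∀ f, mul 1 f = f
  add : IsAdd mul
  comp : IsMul mul
  compact : ∀ a, Tendsto a atTop (𝓝 0) → IsCompactOperator (mul a)

section

variable {𝕜 X Y H : Type*} [RCLike 𝕜] [NormedAddCommGroup X] [NormedSpace 𝕜 X]
  [NormedAddCommGroup Y] [NormedSpace 𝕜 Y] [AddGroup H]

/-- The map `φ` from the bounded operators `X → Y` to the group `H` is additive and zero on the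
compact operators. -/
def ModCompact (φ : (X →L[𝕜] Y) → H) : Prop :=
  (∀ S T, φ (S + T) = φ S + φ T) ∧ ∀ T : X →L[𝕜] Y, IsCompactOperator T → φ T = 0

/-- All sets `{x | κ (φ (T ∘ M)) i = true}`, where `M` is the operator of the sequence `ρ x`, belong
to the class `P`. -/
def AllTests (P : Set (ℕ → Bool) → Prop) (ρ : (ℕ → Bool) → ℕ → ℝ) (m : Action 𝕜 X)
    (κ : H → ℕ → Bool) (φ : (X →L[𝕜] Y) → H) : Prop :=
  ∀ (T : X →L[𝕜] Y) (i : ℕ), P {x | κ (φ (T.comp (m.mul (ρ x)))) i = true}

end

/-- There is a Borel map `ρ` from the Cantor space to the sequences in the unit interval such that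
for all normed spaces `X`, `Y`, every unital representation `m` of the ring of bounded real
sequences on `X` for which null sequences act by compact operators, and every map `φ` from the
bounded operators `X → Y` to a group `H` (with an injection `κ` of `H` into the Cantor space) which
is additive and zero on compact operators: the sets `{x | κ (φ (T ∘ M)) i = true}`, where `M` is the
operator of the sequence `ρ x`, are Turing invariant, and if all of them are determined, then `φ` is
zero. The multiplication operators are such a representation on all spaces `ℓ^p(E)`, for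
`1 ≤ p ≤ ∞` and all finite dimensional normed spaces `E 0`, `E 1`, .... -/
theorem result :
    (∃ ρ : (ℕ → Bool) → ℕ → ℝ, Measurable ρ ∧ (∀ x n, ρ x n ∈ Set.Icc (0 : ℝ) 1) ∧
      ∀ (𝕜 : Type*) [RCLike 𝕜] (X : Type*) [NormedAddCommGroup X] [NormedSpace 𝕜 X]
        (Y : Type*) [NormedAddCommGroup Y] [NormedSpace 𝕜 Y] (H : Type*) [AddGroup H]
        (m : Action 𝕜 X) (κ : H → ℕ → Bool) (φ : (X →L[𝕜] Y) → H), Function.Injective κ →
          ModCompact φ →
          AllTests TuringInvariant ρ m κ φ ∧ (AllTests Determined ρ m κ φ → ∀ T, φ T = 0)) ∧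
    ∀ (𝕜 : Type*) [RCLike 𝕜] (E : ℕ → Type*) [∀ n, NormedAddCommGroup (E n)]
      [∀ n, NormedSpace 𝕜 (E n)] [∀ n, FiniteDimensional 𝕜 (E n)] (p : ENNReal) [Fact (1 ≤ p)],
      Nonempty (Action 𝕜 (lp E p)) := by
  refine ⟨?_, fun 𝕜 _ E _ _ _ p _ => ?_⟩
  swap
  · have : ∀ n, CompleteSpace (E n) := fun n => FiniteDimensional.complete 𝕜 (E n)
    refine ⟨⟨fun a => mulOp 𝕜 E p a, fun f => ?_, fun a b ha hb f => ?_,
      fun a b ha hb f => ?_, fun a ha => compact_of_null ha⟩⟩
    · exact DFunLike.congr_fun (mulOp_one (𝕜 := 𝕜) (E := E) (p := p)) f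
    · exact DFunLike.congr_fun (mulOp_add (𝕜 := 𝕜) (E := E) (p := p) ha hb) f
    · have h1 : a * b = fun n => b n * a n := by
        funext n
        exact mul_comm _ _
      rw [h1]
      exact DFunLike.congr_fun (mulOp_mul (𝕜 := 𝕜) (E := E) (p := p) hb ha) f
  obtain ⟨ρ, h1, h2, h3, h4⟩ := AdditiveModNull.result
  have hρb : ∀ x, Bd (ρ x) := fun x => ⟨1, fun n => abs_le.2 ⟨by linarith [(h2 x n).1],
    (h2 x n).2⟩⟩
  refine ⟨ρ, h1, h2, fun 𝕜 _ X _ _ Y _ _ H _ m κ φ hκ ⟨hadd, hnull⟩ => ?_⟩
  have hcomp : ∀ (T : X →L[𝕜] Y) (a : ℕ → ℝ), Tendsto a atTop (𝓝 0) →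
      φ (T.comp (m.mul a)) = 0 := fun T a ha => hnull _ ((m.compact a ha).clm_comp T)
  have hBd0 : ∀ {a : ℕ → ℝ}, Tendsto a atTop (𝓝 0) → Bd a := by
    intro a h
    obtain ⟨C, hC⟩ := (Metric.isBounded_range_of_tendsto a h).exists_norm_le
    exact ⟨C, fun n => by
      have := hC (a n) ⟨n, rfl⟩
      simpa using this⟩
  have hinv : ∀ (T : X →L[𝕜] Y) (x y : ℕ → Bool), AdditiveModNull.SameDegree x y →
      φ (T.comp (m.mul (ρ x))) = φ (T.comp (m.mul (ρ y))) := by
    intro T x y h
    have h5 := h3 x y h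
    have h6 : ρ x = (fun n => ρ x n - ρ y n) + ρ y := by
      funext n
      simp
    have h7 : m.mul (ρ x) = m.mul (fun n => ρ x n - ρ y n) + m.mul (ρ y) := by
      conv_lhs => rw [h6]
      exact ContinuousLinearMap.ext fun f => m.add _ _ (hBd0 h5) (hρb y) f
    rw [h7, ContinuousLinearMap.comp_add, hadd, hcomp T _ h5, zero_add]
  refine ⟨fun T i x y h5 h6 hx => ?_, fun hD T => ?_⟩
  · change κ (φ (T.comp (m.mul (ρ x)))) i = true at hx
    change κ (φ (T.comp (m.mul (ρ y)))) i = true
    rwa [← hinv T x y ⟨h5, h6⟩]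
  · let ψ : (ℕ → ℝ) → H := fun a => φ (T.comp (m.mul a))
    have hBd : ∀ {v : ℕ → ℝ}, AdditiveModNull.Bdd v → Bd v := fun ⟨C, hC⟩ =>
      ⟨C, fun n => by rw [← Real.norm_eq_abs]; exact hC n⟩
    have h5 := h4 ℝ H κ hκ ψ (fun u v hu hv => by
        change φ (T.comp (m.mul (u + v))) = _
        rw [show m.mul (u + v) = m.mul u + m.mul v from
          ContinuousLinearMap.ext fun f => m.add _ _ (hBd hu) (hBd hv) f,
          ContinuousLinearMap.comp_add, hadd])
      (fun u hu => hcomp T u hu)
    have h6 : ψ 1 = 0 := by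
      refine h5.2 (fun v hv i => ?_) _ ⟨1, fun n => by simp⟩
      have h7 : ∀ x, ψ (fun n => ρ x n • v n) = φ ((T.comp (m.mul v)).comp (m.mul (ρ x))) := by
        intro x
        have h8 : (fun n => ρ x n • v n) = v * ρ x := by
          funext n
          exact mul_comm _ _
        change φ (T.comp (m.mul fun n => ρ x n • v n)) = _
        rw [h8, show m.mul (v * ρ x) = (m.mul v).comp (m.mul (ρ x)) from
          ContinuousLinearMap.ext fun f => m.comp _ _ (hBd hv) (hρb x) f]
        rfl
      simp only [h7]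
      exact hD (T.comp (m.mul v)) i
    have h7 : ψ 1 = φ T := by
      change φ (T.comp (m.mul 1)) = φ T
      rw [show m.mul 1 = ContinuousLinearMap.id 𝕜 X from ContinuousLinearMap.ext m.one]
      rfl
    rw [← h7, h6]

end Pool.Agent.Results.MP_917879_lc.OperatorsModCompact
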