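import Pool.Agent.Q331.TD.Uni

set_option autoImplicit false

/-!
# Turing determinacy and actions of products of metric groups modulo null sequences

Let `G 0, G 1, …` be groups with lengths `L n` which are invariant under conjugation, and let the
product of all `G n` act on a set `X` which injects into the reals, such that the sequences `u` with
`L n (u n) → 0` act trivially. Turing determinacy implies that every sequence `v` which can be joined
to the identity by asymptotically uniformly equicontinuous curves acts trivially. Stated as an
explicit reduction to the determinacy of Turing invariant sets.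

Examples of groups in which all sequences (or a generating set of them) can be joined to the
identity: the symmetric groups of degree `d n → ∞` with the normalised Hamming length (so under Turing
determinacy the product of the symmetric groups modulo null sequences, which contains all sofic
groups, has no nontrivial action on a set which injects into the reals, in particular no nontrivial
homomorphism into a group which injects into the reals); the unitary groups of arbitrary
C*-algebras.

Proof. Let `s x` be the slow sequence attached to the real `x` in the starting files; Turing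
equivalent reals have asymptotically equal slow sequences. For a loop `γ` (with period one, at the
identity) and a point `ξ` the point `γ (s x) ξ` is the same point `r` for all `x` in a cone, and
`γ (s x) r` is the same point `r'`. Now `γ (s x) = γ (s y) γ (s z)` modulo null sequences, where `y`
and `z` are in the cone and make only the odd and only the even turns; so `r = γ (s y) r = r'`, and as
`γ (s y) ξ = r` we get `ξ = r`. If `p` joins `1` to `v`, and `w` is the squared sine, then `v` is the
product of `p (w (s x))` and of `p (w (s x))⁻¹ v`, and both are slow turns of loops.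
-/

namespace Pool.Agent.Results.MP_917879_lc.ProductsOfMetricGroups

open Pool.Agent.H685R3 Pool.Agent.Q331.TD Filter Topology

/-- `x` and `y` have the same Turing degree (Mathlib's Turing reducibility, for characteristic
functions). -/
def SameDegree (x y : ℕ → Bool) : Prop :=
  TuringReducible (charFn x) (charFn y) ∧ TuringReducible (charFn y) (charFn x)

/-- There is a Borel map `s` from the Cantor space to the sequences of nonnegative reals tending to
infinity, with `s x - s y → 0` for Turing equivalent `x` and `y`, such that: if the product of groups
`G n` with invariant lengths `L n` acts on a set `X` with an injection `κ` into the Cantor space, and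
null sequences act trivially, then all sets `{x | κ (γ (s x) • ξ) i = true}`, for asymptotically
equicontinuous curves `γ n` in `G n` and points `ξ`, are Turing invariant, and if all of them are
determined, then all sequences which can be joined to the identity act trivially; in particular all
homomorphisms of the product into a group which injects into the Cantor space and are trivial on
null sequences are trivial on these sequences. Can be joined to the identity: sequences `v` such
that `v n` is a product of at most `m n` elements of length at most `c / m n`, `m n → ∞`; all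
sequences of permutations of `d n` points, `d n → ∞`, for the normalised Hamming length; and all
sequences of unitary elements `u n` of C*-algebras with `‖u n - 1‖ < 2`. -/
theorem result :
    ∃ s : (ℕ → Bool) → ℕ → ℝ, Measurable s ∧ (∀ x n, 0 ≤ s x n) ∧
      (∀ x, Tendsto (s x) atTop atTop) ∧
      (∀ x y, SameDegree x y → Tendsto (fun n => s x n - s y n) atTop (𝓝 0)) ∧
      (∀ (G : ℕ → Type*) [∀ n, Group (G n)] (L : ∀ n, G n → ℝ), (∀ n, IsLength (L n)) →
        ∀ (X : Type*) [MulAction (∀ n, G n) X] (κ : X → ℕ → Bool), Function.Injective κ →
        (∀ u : ∀ n, G n, Null L u → ∀ ξ : X, u • ξ = ξ) →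
        (∀ γ : ∀ n, ℝ → G n, Equi L γ → ∀ (ξ : X) (i : ℕ),
          TuringInvariant {x | κ ((fun n => γ n (s x n)) • ξ) i = true}) ∧
        ((∀ γ : ∀ n, ℝ → G n, Equi L γ → ∀ (ξ : X) (i : ℕ),
          Determined {x | κ ((fun n => γ n (s x n)) • ξ) i = true}) →
            ∀ v : ∀ n, G n, Joinable L v → ∀ ξ : X, v • ξ = ξ)) ∧
      (∀ (G : ℕ → Type*) [∀ n, Group (G n)] (L : ∀ n, G n → ℝ), (∀ n, IsLength (L n)) →
        ∀ (H : Type*) [Group H] (κ : H → ℕ → Bool), Function.Injective κ →
        ∀ φ : (∀ n, G n) →* H, (∀ u : ∀ n, G n, Null L u → φ u = 1) →
        (∀ γ : ∀ n, ℝ → G n, Equi L γ → ∀ (h : H) (i : ℕ),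
          Determined {x | κ (φ (fun n => γ n (s x n)) * h) i = true}) →
            ∀ v : ∀ n, G n, Joinable L v → φ v = 1) ∧
      (∀ (G : ℕ → Type*) [∀ n, Group (G n)] (L : ∀ n, G n → ℝ), (∀ n, IsLength (L n)) →
        ∀ (v : ∀ n, G n) (m : ℕ → ℕ) (c : ℝ) (l : ∀ n, List (G n)), Tendsto m atTop atTop →
        0 ≤ c → (∀ n, (l n).prod = v n) → (∀ n, (l n).length ≤ m n) →
        (∀ n, ∀ g ∈ l n, L n g ≤ c / m n) → Joinable L v) ∧
      (∀ d : ℕ → ℕ, Tendsto d atTop atTop → (∀ n, IsLength (hamming (d n))) ∧
        ∀ v : ∀ n, Equiv.Perm (Fin (d n)), Joinable (fun n => hamming (d n)) v) ∧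
      (∀ (A : ℕ → Type*) [∀ n, CStarAlgebra (A n)],
        (∀ n, IsLength (unitaryLength (A n))) ∧ ∀ v : ∀ n, unitary (A n),
          (∀ n, ‖(v n : A n) - 1‖ < 2) → Joinable (fun n => unitaryLength (A n)) v) := by
  refine ⟨Pool.Agent.TH774.TD.sq, measurable_pi_lambda _ Pool.Agent.TH774.TD.measurable_sq,
    fun x n => Real.sqrt_nonneg _, Pool.Agent.TH774.TD.tendsto_sq,
    fun x y h => Pool.Agent.TH774.TD.sq_close h.1 h.2, ?_, ?_, ?_, ?_, ?_⟩
  · intro G _ L hL X _ κ hκ hnull
    exact ⟨fun γ hγ ξ i => test_invariant hL hnull κ hγ ξ i,
      fun hD v hv ξ => trivial_action hL hnull hκ hD hv ξ⟩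
  · intro G _ L hL H _ κ hκ φ hφ hD v hv
    let _ : MulAction (∀ n, G n) H := MulAction.compHom H φ
    have h1 : ∀ (u : ∀ n, G n) (h : H), u • h = φ u * h := fun u h => rfl
    have h2 := trivial_action (X := H) hL (fun u hu h => by rw [h1, hφ u hu, one_mul]) hκ
      (fun γ hγ h i => hD γ hγ h i) hv (1 : H)
    rw [h1, mul_one] at h2
    exact h2
  · intro G _ L hL v m c l hm hc hv hlen hl
    exact joinable_of_factors hL m hm hc l hv hlen hl
  · intro d hd
    exact ⟨fun n => isLength_hamming (d n), joinable_perm d hd⟩
  · intro A _
    exact ⟨fun n => isLength_unitary (A n), joinable_unitary A⟩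

end Pool.Agent.Results.MP_917879_lc.ProductsOfMetricGroups
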