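import Pool.Agent.Q302.TD.Repar

set_option autoImplicit false

/-!
Turing determinacy implies that every real valued invariant of divergent real sequences modulo null
sequences takes the same value at all monotone Lipschitz reparametrizations of some sequence. In
particular no such invariant separates `t`, `t + c` and `c t` for all divergent `t`, and every
invariant of sequences in a metric space modulo null sequences is constant on the set of all
traversals, with different speeds, of any given uniformly continuous curve. Stated as an explicit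
reduction to the determinacy of Turing invariant sets.
-/

namespace Pool.Agent.Results.MP_917879_lc.Reparametrization

open Pool.Agent.H685R3 Pool.Agent.TH774.TD Filter Topology

/-- `x` and `y` have the same Turing degree (Mathlib's Turing reducibility, for characteristic
functions). -/
def SameDegree (x y : ℕ → Bool) : Prop :=
  TuringReducible (charFn x) (charFn y) ∧ TuringReducible (charFn y) (charFn x)

/-- `G` does not change under null perturbations of sequences in `M`. -/
def NullInvariant {M : Type*} [PseudoMetricSpace M] (G : (ℕ → M) → ℕ → Bool) : Prop :=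
  ∀ v w : ℕ → M, Tendsto (fun n => dist (v n) (w n)) atTop (𝓝 0) → G v = G w

/-- There is a Borel map `s` from the Cantor space to the sequences of nonnegative reals which tend
to infinity, sending Turing equivalent reals to sequences with difference tending to zero, such
that: for every uniformly continuous curve `u` in a metric space `M` and every map `G` from the
sequences in `M` to the Cantor space which does not change under null perturbations, the sets
`{x | G (u ∘ s x) i = true}` are Turing invariant, and if all of them are determined, then there is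
a sequence `t` of reals tending to infinity such that `G (u ∘ φ ∘ t) = G (u ∘ t)` for all monotone
Lipschitz functions `φ` tending to infinity. -/
theorem result :
    ∃ s : (ℕ → Bool) → ℕ → ℝ, Measurable s ∧ (∀ x n, 0 ≤ s x n) ∧
      (∀ x, Tendsto (s x) atTop atTop) ∧
      (∀ x y, SameDegree x y → Tendsto (fun n => s x n - s y n) atTop (𝓝 0)) ∧
      ∀ (M : Type*) [PseudoMetricSpace M] (u : ℝ → M), UniformContinuous u →
        ∀ G : (ℕ → M) → ℕ → Bool, NullInvariant G →
        (∀ i, TuringInvariant {x | G (fun n => u (s x n)) i = true}) ∧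
        ((∀ i, Determined {x | G (fun n => u (s x n)) i = true}) →
          ∃ t : ℕ → ℝ, Tendsto t atTop atTop ∧ ∀ φ : ℝ → ℝ, Monotone φ →
            (∃ K, LipschitzWith K φ) → Tendsto φ atTop atTop →
              G (fun n => u (φ (t n))) = G (fun n => u (t n))) := by
  have hclose : ∀ x y, SameDegree x y → Tendsto (fun n => TH774.TD.sq x n - TH774.TD.sq y n) atTop
      (𝓝 0) := fun x y h => sq_close h.1 h.2
  refine ⟨TH774.TD.sq, measurable_pi_lambda _ measurable_sq, fun x n => Real.sqrt_nonneg _,
    tendsto_sq, hclose, fun M _ u hu G hG => ?_⟩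
  have hG' : ∀ v w : ℕ → ℝ, Tendsto (fun n => v n - w n) atTop (𝓝 0) →
      G (fun n => u (v n)) = G (fun n => u (w n)) := by
    intro v w h
    refine hG _ _ ?_
    rw [Metric.tendsto_atTop] at h ⊢
    intro ε hε
    obtain ⟨δ, hδ, hδ'⟩ := Metric.uniformContinuous_iff.1 hu ε hε
    obtain ⟨n₀, hn₀⟩ := h δ hδ
    refine ⟨n₀, fun n hn => ?_⟩
    have h1 := hn₀ n hn
    rw [Real.dist_eq, sub_zero] at h1
    rw [Real.dist_eq, sub_zero, abs_of_nonneg dist_nonneg]
    exact hδ' (by rw [Real.dist_eq]; exact h1)
  have hinv : ∀ i, TuringInvariant {x | G (fun n => u (TH774.TD.sq x n)) i = true} := by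
    intro i x y h1 h2 hx
    change G _ i = true at hx
    change G _ i = true
    rw [← hG' _ _ (hclose x y ⟨h1, h2⟩)]
    exact hx
  refine ⟨hinv, fun hD => ?_⟩
  obtain ⟨z, hz⟩ := const_on_cone hinv hD
  have hconst : ∀ y, Pool.Agent.Helper227.TLe z y →
      G (fun n => u (TH774.TD.sq y n)) = G (fun n => u (TH774.TD.sq z n)) := by
    intro y hy
    funext i
    rcases hz i with h | h
    · have h1 : G (fun n => u (TH774.TD.sq y n)) i = true := h y hy
      have h2 : G (fun n => u (TH774.TD.sq z n)) i = true :=
        h z (Pool.Agent.Helper227.TLe.refl z)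
      rw [h1, h2]
    · have h1 : ¬ G (fun n => u (TH774.TD.sq y n)) i = true := h y hy
      have h2 : ¬ G (fun n => u (TH774.TD.sq z n)) i = true :=
        h z (Pool.Agent.Helper227.TLe.refl z)
      rw [Bool.not_eq_true] at h1 h2
      rw [h1, h2]
  obtain ⟨t, ht, hw⟩ := Pool.Agent.Q302.TD.walk_lip z
  have hval : ∀ φ : ℝ → ℝ, Monotone φ → (∃ K, LipschitzWith K φ) → Tendsto φ atTop atTop →
      G (fun n => u (φ (t n))) = G (fun n => u (TH774.TD.sq z n)) := by
    rintro φ hm ⟨K, hK⟩ hφ
    have hK' : ∀ a b, a ≤ b → φ b - φ a ≤ K * (b - a) := by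
      intro a b hab
      have h1 := hK.dist_le_mul b a
      rw [Real.dist_eq, Real.dist_eq, abs_of_nonneg (sub_nonneg.2 hab)] at h1
      exact (le_abs_self _).trans h1
    obtain ⟨y, hy, hy'⟩ := hw φ hm ⟨K, hK'⟩ hφ
    rw [← hconst y hy]
    exact (hG' _ _ hy').symm
  refine ⟨t, ht, fun φ hm hK hφ => ?_⟩
  rw [hval φ hm hK hφ]
  exact (hval (fun a => a) monotone_id ⟨1, LipschitzWith.id⟩ tendsto_id).symm

end Pool.Agent.Results.MP_917879_lc.Reparametrization
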