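import Pool.Agent.Q302.TD.Sparse

set_option autoImplicit false

/-!
Turing determinacy gives a zero-one law for all upward closed families of sets of natural numbers
modulo finite sets: such a family contains almost every set (in the sense of measure and category),
or it contains no sufficiently sparse set. In particular every hereditary family which is not null
contains all sufficiently sparse sets. Stated as an explicit reduction to the determinacy of one
Turing invariant set.
-/

namespace Pool.Agent.Results.MP_917879_lc.SparseSets

open Pool.Agent.H685R3 Pool.Agent.Q302.TD Filter MeasureTheory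

/-- `x` and `y` have the same Turing degree (Mathlib's Turing reducibility, for characteristic
functions). -/
def SameDegree (x y : ℕ → Bool) : Prop :=
  TuringReducible (charFn x) (charFn y) ∧ TuringReducible (charFn y) (charFn x)

/-- The Turing saturation of the preimage of `V` under `Γ`. -/
def Saturation (V : Set (ℕ → Bool)) (Γ : (ℕ → Bool) → ℕ → Bool) : Set (ℕ → Bool) :=
  {x | ∃ x', SameDegree x' x ∧ Γ x' ∈ V}

/-- Any two elements `m < n` of `a` satisfy `h m < n`. -/
def Sparse (h : ℕ → ℕ) (a : ℕ → Bool) : Prop :=
  ∀ m n, a m = true → a n = true → m < n → h m < n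

/-- There is a Borel map `Γ` of the Cantor space into itself such that for every set `V` of subsets
of the natural numbers with `b ∈ V` whenever `a ∈ V` and `a \ b` is finite, the Turing saturation of
the preimage of `V` is Turing invariant, and if it is determined, then either `V` contains almost
every set, for every product measure whose probabilities are bounded away from zero, and comeager
many sets, or there is a function `h` such that `V` contains no `h`-sparse set. -/
theorem result :
    ∃ Γ : (ℕ → Bool) → ℕ → Bool, Measurable Γ ∧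
      ∀ V : Set (ℕ → Bool), (∀ a b, a ∈ V → (∀ᶠ n in atTop, a n = true → b n = true) → b ∈ V) →
        TuringInvariant (Saturation V Γ) ∧
        (Determined (Saturation V Γ) →
          ((∀ (ν : ℕ → Measure Bool) [∀ n, IsProbabilityMeasure (ν n)],
              (∃ ε > 0, ∀ n, ε ≤ ν n {true}) → ∀ᵐ a ∂(Measure.infinitePi ν), a ∈ V) ∧
            ∀ᶠ a in residual (ℕ → Bool), a ∈ V) ∨
          ∃ h : ℕ → ℕ, ∀ a, Sparse h a → a ∉ V) := by
  refine ⟨nv, measurable_nv, fun V hV => ?_⟩
  have key : Saturation V nv = satN V := by
    ext x
    exact ⟨fun ⟨x', h, h'⟩ => ⟨x', h.1, h.2, h'⟩, fun ⟨x', h1, h2, h'⟩ => ⟨x', ⟨h1, h2⟩, h'⟩⟩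
  rw [key]
  refine ⟨satN_invariant V, fun hD => ?_⟩
  rcases hD with h | h
  · obtain ⟨z, hz⟩ := cone_of_wins (b := 0) (by omega) (satN_invariant V) h
    obtain ⟨F, h1, h2, h3⟩ := conull hV hz
    refine Or.inl ⟨fun ν _ ⟨ε, hε, hν⟩ => ?_, ?_⟩
    · have h4 : ∀ u : List ℕ, ∀ᵐ r ∂(Measure.infinitePi ν), ∃ n, r ∈ Sup (F u n) := fun u => by
        obtain ⟨v, hv⟩ := h2 u
        exact ae_of_esc (h1 u) hv ν hε hν
      filter_upwards [ae_all_iff.2 h4] with r hr using h3 r hr
    · have h4 : ∀ u : List ℕ, ∀ᶠ r in residual (ℕ → Bool), ∃ n, r ∈ Sup (F u n) :=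
        fun u => residual_of_esc (h1 u)
      filter_upwards [eventually_countable_forall.2 h4] with r hr using h3 r hr
  · obtain ⟨z, hz⟩ := cone_of_wins (b := 1) (by omega)
      (Pool.Agent.W885.TD.compl_invariant (satN_invariant V)) h
    exact Or.inr ⟨Pool.Agent.W885.TD.hb z, fun a ha => not_sparse hV hz ha⟩

end Pool.Agent.Results.MP_917879_lc.SparseSets
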